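import Pool.Agent.Q176.WL.W3

/-!
# A compact Hausdorff space with a cuf base that is not weakly Loeb

The model is a symmetric extension of permutation type: the atoms (represented by sets of mutually
generic Cohen reals) are indexed by the finitely supported binary sequences, supports are finite,
and the group consists of all permutations of the index set that preserve, for all `k`, the
relation that the first `k` coordinates agree.

The balls (the sets of all points whose first `k` coordinates are given) are a base of the space
of the atoms; there are finitely many balls of each order, so this is a cuf base. Let `C` be a
cover by open sets with the support `E`. Each point of `E` has a ball that is contained in a member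
of `C`; let these balls be of order at most `L`. A ball of order `L` that contains a point of `E`
is then contained in a member of `C`. If a ball of order `L` does not contain a point of `E`, then
the translations inside this ball are elements of the group that fix `E`, and they map one small
ball that is contained in a member of `C` to all balls of the same order in the given ball. So for
some `k` all balls of order `k` are contained in members of `C`, and `C` has a finite subcover.

The space is not weakly Loeb: if `f` has the support `E`, then the value of `f` at a ball that does
not contain a point of `E` is preserved by all the translations inside this ball, so it is infinite
if it is not empty.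
-/

set_option autoImplicit false

namespace Pool.Agent.Results.MP_d8a1a0_gt.CufCompactNotWeaklyLoeb

open Pool.Agent.W868 Pool.Agent.Q211.TP Pool.Agent.Q211.FS Pool.Agent.Q176.WL

/-- There is a countable transitive model of ZF that contains a compact Hausdorff space `(X, τ)`
with a cuf base that is not weakly Loeb in the model. -/
theorem result : ∃ M : Set ZFSet.{0}, M.Countable ∧ IsZF M ∧ ∃ X ∈ M, ∃ τ ∈ M,
    IsTopIn M X τ ∧ CompactIn M X τ ∧ HausdorffIn X τ ∧ CufBaseIn M τ ∧ ¬ WeaklyLoebIn M X τ :=
  main

end Pool.Agent.Results.MP_d8a1a0_gt.CufCompactNotWeaklyLoeb
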